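import Mathlib

set_option autoImplicit false

/-!
# The approximation ratio of the k-lookahead auction does not tend to one
-/

namespace Pool.Agent.Results.MP_0f9109_lc.NotToOne

open Finset Filter Topology

/-- A profile of values (or bids) of `n` bidders. -/
abbrev Profile (n : ℕ) : Type := Fin n → ℝ

/-- All values are positive. -/
def Pos {n : ℕ} (v : Profile n) : Prop := ∀ i, 0 < v i

/-- A mechanism: allocation probabilities `x` and expected payments `p`. -/
structure Mech (n : ℕ) where
  /-- allocation probabilities -/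
  x : Profile n → Fin n → ℝ
  /-- expected payments -/
  p : Profile n → Fin n → ℝ

/-- The mechanism allocates at most one item, is truthful in expectation (whatever the other bids,
no bidder gains by misreporting) and individually rational. -/
structure Mech.Valid {n : ℕ} (M : Mech n) : Prop where
  nonneg : ∀ v, Pos v → ∀ i, 0 ≤ M.x v i
  sum_le : ∀ v, Pos v → ∑ i, M.x v i ≤ 1
  truthful : ∀ v, Pos v → ∀ i, ∀ b, 0 < b →
    M.x (Function.update v i b) i * v i - M.p (Function.update v i b) i ≤
      M.x v i * v i - M.p v i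
  rational : ∀ v, Pos v → ∀ i, 0 ≤ M.x v i * v i - M.p v i

/-- A finitely supported probability distribution on positive profiles. -/
structure IsDist {n : ℕ} (D : Profile n →₀ ℝ) : Prop where
  nonneg : ∀ v, 0 ≤ D v
  total : (D.sum fun _ w => w) = 1
  pos : ∀ v ∈ D.support, Pos v

/-- Expected revenue of `M` under truthful bidding. -/
noncomputable def revenue {n : ℕ} (D : Profile n →₀ ℝ) (M : Mech n) : ℝ :=
  D.sum fun v w => w * ∑ i, M.p v i

/-- The optimal revenue of a truthful-in-expectation, individually rational mechanism. -/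
noncomputable def OPT {n : ℕ} (D : Profile n →₀ ℝ) : ℝ :=
  sSup {r | ∃ M : Mech n, M.Valid ∧ r = revenue D M}

/-- Bidder `j` is ranked before bidder `i` (higher value, ties broken by index). -/
def Ahead {n : ℕ} (v : Profile n) (j i : Fin n) : Prop := v i < v j ∨ (v j = v i ∧ j < i)

open Classical in
/-- The set `K` of the `k` highest bidders. -/
noncomputable def top {n : ℕ} (k : ℕ) (v : Profile n) : Finset (Fin n) :=
  univ.filter fun i => (univ.filter fun j => Ahead v j i).card < k

/-- The mechanism gives nothing to, and takes nothing from, the bidders outside `K`. -/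
def ServesOnly {n : ℕ} (K : Finset (Fin n)) (M : Mech n) : Prop :=
  ∀ v i, i ∉ K → M.x v i = 0 ∧ M.p v i = 0

/-- The conditioning event of the lookahead auction: the values outside `K` are those of `u`, and
every bidder of `K` has at least the highest value outside `K`. -/
def condEvent {n : ℕ} (K : Finset (Fin n)) (u : Profile n) : Set (Profile n) :=
  {v | (∀ j, j ∉ K → v j = u j) ∧ ∀ i ∈ K, ∀ j, j ∉ K → v j ≤ v i}

open Classical in
/-- The conditional distribution given `condEvent K u`. -/
noncomputable def condDist {n : ℕ} (D : Profile n →₀ ℝ) (K : Finset (Fin n)) (u : Profile n) :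
    Profile n →₀ ℝ :=
  ((D.filter (· ∈ condEvent K u)).sum fun _ w => w)⁻¹ • D.filter (· ∈ condEvent K u)

/-- `M` is revenue-maximizing for `D'` among the valid mechanisms serving only bidders of `K`. -/
def OptimalFor {n : ℕ} (K : Finset (Fin n)) (D' : Profile n →₀ ℝ) (M : Mech n) : Prop :=
  M.Valid ∧ ServesOnly K M ∧
    ∀ M' : Mech n, M'.Valid → ServesOnly K M' → revenue D' M' ≤ revenue D' M

/-- `A` is a choice of the mechanisms run by the `k`-lookahead auction for `D`: for each possible
set `K` of highest bidders and each possible profile of the other values, `A K u` (which depends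
only on the values outside `K`) is a revenue-maximizing mechanism for the conditional
distribution. -/
structure IsLookahead {n : ℕ} (k : ℕ) (D : Profile n →₀ ℝ)
    (A : Finset (Fin n) → Profile n → Mech n) : Prop where
  depends : ∀ K u u', (∀ j, j ∉ K → u j = u' j) → A K u = A K u'
  optimal : ∀ v ∈ D.support, OptimalFor (top k v) (condDist D (top k v) v) (A (top k v) v)

/-- Expected revenue of the `k`-lookahead auction: at `v` it runs `A (top k v) v`. -/
noncomputable def lookRev {n : ℕ} (k : ℕ) (D : Profile n →₀ ℝ)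
    (A : Finset (Fin n) → Profile n → Mech n) : ℝ :=
  D.sum fun v w => w * ∑ i, (A (top k v) v).p v i

/-- The approximation ratio: the largest `c` such that the `k`-lookahead auction is a
`c`-approximation for every number of bidders and every distribution. -/
noncomputable def rho (k : ℕ) : ℝ :=
  sSup {c : ℝ | ∀ (n : ℕ) (D : Profile n →₀ ℝ) (A : Finset (Fin n) → Profile n → Mech n),
    IsDist D → IsLookahead k D A → c * OPT D ≤ lookRev k D A}

/-! ### Basic facts -/

section Basic

variable {n : ℕ}

theorem Pos.update {v : Profile n} (hv : Pos v) (i : Fin n) {b : ℝ} (hb : 0 < b) :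
    Pos (Function.update v i b) := by
  intro j
  by_cases h : j = i
  · subst h; simpa using hb
  · rw [Function.update_of_ne h]; exact hv j

theorem Mech.Valid.x_le_one {M : Mech n} (hM : M.Valid) {v : Profile n} (hv : Pos v)
    (i : Fin n) : M.x v i ≤ 1 :=
  le_trans (Finset.single_le_sum (fun j _ => hM.nonneg v hv j) (mem_univ i)) (hM.sum_le v hv)

theorem Mech.Valid.p_le {M : Mech n} (hM : M.Valid) {v : Profile n} (hv : Pos v)
    (i : Fin n) : M.p v i ≤ v i := by
  have h1 := hM.rational v hv i
  have h2 := hM.x_le_one hv i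
  have h3 := hv i
  nlinarith

theorem Mech.Valid.mono {M : Mech n} (hM : M.Valid) {v : Profile n} (hv : Pos v)
    (i : Fin n) {b : ℝ} (hb : v i < b) : M.x v i ≤ M.x (Function.update v i b) i := by
  have hb0 : 0 < b := lt_trans (hv i) hb
  have h1 := hM.truthful v hv i b hb0
  have h2 := hM.truthful (Function.update v i b) (hv.update i hb0) i (v i) (hv i)
  rw [Function.update_idem, Function.update_eq_self, Function.update_self] at h2
  by_contra hlt
  push Not at hlt
  nlinarith

theorem revenue_mono {D : Profile n →₀ ℝ} (h0 : ∀ v, 0 ≤ D v) (hp : ∀ v ∈ D.support, Pos v)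
    {M M' : Mech n} (h : ∀ v, Pos v → ∀ i, M.p v i ≤ M'.p v i) :
    revenue D M ≤ revenue D M' := by
  unfold revenue Finsupp.sum
  refine Finset.sum_le_sum fun v hv => ?_
  exact mul_le_mul_of_nonneg_left (Finset.sum_le_sum fun i _ => h v (hp v hv) i) (h0 v)

theorem bdd {D : Profile n →₀ ℝ} (hD : IsDist D) :
    BddAbove {r | ∃ M : Mech n, M.Valid ∧ r = revenue D M} := by
  refine ⟨D.sum fun v w => w * ∑ i, v i, ?_⟩
  rintro r ⟨M, hM, rfl⟩
  unfold revenue Finsupp.sum
  refine Finset.sum_le_sum fun v hv => ?_
  exact mul_le_mul_of_nonneg_left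
    (Finset.sum_le_sum fun i _ => hM.p_le (hD.pos v hv) i) (hD.nonneg v)

theorem le_OPT {D : Profile n →₀ ℝ} (hD : IsDist D) {M : Mech n} (hM : M.Valid) :
    revenue D M ≤ OPT D :=
  le_csSup (bdd hD) ⟨M, hM, rfl⟩

end Basic

/-! ### Revenue-maximizing mechanisms exist -/

section Existence

variable {n : ℕ}

open Classical in
/-- The utility of bidder `i` with value `b` when the others bid as in `v`. -/
noncomputable def util (M : Mech n) (v : Profile n) (i : Fin n) (b : ℝ) : ℝ :=
  M.x (Function.update v i b) i * b - M.p (Function.update v i b) i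

/-- The infimum of the utility over the positive values. -/
noncomputable def slack (M : Mech n) (v : Profile n) (i : Fin n) : ℝ :=
  ⨅ b : {b : ℝ // 0 < b}, util M v i b

open Classical in
/-- Payments shifted up as far as individual rationality allows. -/
noncomputable def norm (M : Mech n) : Mech n where
  x v i := if Pos v then M.x v i else 0
  p v i := if Pos v then M.p v i + slack M v i else 0

theorem util_nonneg {M : Mech n} (hM : M.Valid) {v : Profile n} (hv : Pos v) (i : Fin n)
    (b : {b : ℝ // 0 < b}) : 0 ≤ util M v i b := by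
  have := hM.rational _ (hv.update i b.2) i
  rw [Function.update_self] at this
  exact this

theorem util_bdd {M : Mech n} (hM : M.Valid) {v : Profile n} (hv : Pos v) (i : Fin n) :
    BddBelow (Set.range fun b : {b : ℝ // 0 < b} => util M v i b) :=
  ⟨0, by rintro _ ⟨b, rfl⟩; exact util_nonneg hM hv i b⟩

instance : Nonempty {b : ℝ // 0 < b} := ⟨⟨1, one_pos⟩⟩

theorem slack_nonneg {M : Mech n} (hM : M.Valid) {v : Profile n} (hv : Pos v) (i : Fin n) :
    0 ≤ slack M v i := le_ciInf fun b => util_nonneg hM hv i b

theorem slack_le {M : Mech n} (hM : M.Valid) {v : Profile n} (hv : Pos v) (i : Fin n)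
    {b : ℝ} (hb : 0 < b) : slack M v i ≤ util M v i b :=
  ciInf_le (util_bdd hM hv i) ⟨b, hb⟩

theorem util_self (M : Mech n) (v : Profile n) (i : Fin n) :
    util M v i (v i) = M.x v i * v i - M.p v i := by
  unfold util; rw [Function.update_eq_self]

theorem slack_update (M : Mech n) (v : Profile n) (i : Fin n) (b : ℝ) :
    slack M (Function.update v i b) i = slack M v i := by
  unfold slack util
  simp only [Function.update_idem]

theorem norm_p_nonneg {M : Mech n} (hM : M.Valid) {v : Profile n} (hv : Pos v) (i : Fin n) :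
    0 ≤ M.p v i + slack M v i := by
  have h : M.x v i * v i - M.p v i - M.x v i * v i ≤ slack M v i := by
    refine le_ciInf fun b => ?_
    obtain ⟨b, hb⟩ := b
    have h1 := hM.truthful (Function.update v i b) (hv.update i hb) i (v i) (hv i)
    rw [Function.update_idem, Function.update_eq_self, Function.update_self] at h1
    have h2 := hM.nonneg v hv i
    unfold util
    simp only
    nlinarith
  linarith

theorem norm_valid {M : Mech n} (hM : M.Valid) : (norm M).Valid where
  nonneg v hv i := by simp only [norm, hv, if_true]; exact hM.nonneg v hv i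
  sum_le v hv := by simp only [norm, hv, if_true]; exact hM.sum_le v hv
  truthful v hv i b hb := by
    simp only [norm, hv, hv.update i hb, if_true, slack_update]
    have := hM.truthful v hv i b hb
    linarith
  rational v hv i := by
    simp only [norm, hv, if_true]
    have := slack_le hM hv i (hv i)
    rw [util_self] at this
    linarith

theorem norm_serves {M : Mech n} {K : Finset (Fin n)} (hK : ServesOnly K M) :
    ServesOnly K (norm M) := by
  intro v i hi
  have h1 : slack M v i = 0 := by
    unfold slack util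
    have : ∀ b : {b : ℝ // 0 < b}, M.x (Function.update v i b) i * (b : ℝ) -
        M.p (Function.update v i b) i = 0 := by
      intro b
      rw [(hK _ i hi).1, (hK _ i hi).2]; ring
    simp only [this, ciInf_const]
  simp only [norm, (hK v i hi).1, (hK v i hi).2, h1, add_zero, ite_self, and_self]

/-- The compact set of normalised valid mechanisms serving only `K`. -/
def box (K : Finset (Fin n)) : Set ((Profile n → Fin n → ℝ) × (Profile n → Fin n → ℝ)) :=
  {m | (m.1 ∈ Set.pi Set.univ fun _ : Profile n => Set.pi Set.univ fun _ : Fin n =>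
        Set.Icc (0 : ℝ) 1) ∧
      (m.2 ∈ Set.pi Set.univ fun v : Profile n => Set.pi Set.univ fun i : Fin n =>
        Set.Icc (0 : ℝ) |v i|) ∧
      Mech.Valid ⟨m.1, m.2⟩ ∧ ServesOnly K ⟨m.1, m.2⟩}

theorem norm_mem_box {M : Mech n} (hM : M.Valid) {K : Finset (Fin n)} (hK : ServesOnly K M) :
    ((norm M).x, (norm M).p) ∈ box K := by
  refine ⟨?_, ?_, norm_valid hM, norm_serves hK⟩
  · intro v _ i _
    by_cases hv : Pos v
    · simp only [norm, hv, if_true]
      exact ⟨hM.nonneg v hv i, hM.x_le_one hv i⟩
    · simp [norm, hv]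
  · intro v _ i _
    by_cases hv : Pos v
    · have h1 := (norm_valid hM).p_le hv i
      simp only [norm, hv, if_true] at h1 ⊢
      exact ⟨norm_p_nonneg hM hv i, le_trans h1 (le_abs_self _)⟩
    · simp [norm, hv]

theorem box_compact (K : Finset (Fin n)) : IsCompact (box K) := by
  have h1 : IsCompact ((Set.pi Set.univ fun _ : Profile n => Set.pi Set.univ fun _ : Fin n =>
      Set.Icc (0 : ℝ) 1) ×ˢ (Set.pi Set.univ fun v : Profile n => Set.pi Set.univ fun i : Fin n =>
        Set.Icc (0 : ℝ) |v i|)) :=
    (isCompact_univ_pi fun _ => isCompact_univ_pi fun _ => isCompact_Icc).prod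
      (isCompact_univ_pi fun _ => isCompact_univ_pi fun _ => isCompact_Icc)
  have hx : ∀ (v : Profile n) (i : Fin n), Continuous
      fun m : (Profile n → Fin n → ℝ) × (Profile n → Fin n → ℝ) => m.1 v i := fun v i =>
    (continuous_apply i).comp ((continuous_apply v).comp continuous_fst)
  have hp : ∀ (v : Profile n) (i : Fin n), Continuous
      fun m : (Profile n → Fin n → ℝ) × (Profile n → Fin n → ℝ) => m.2 v i := fun v i =>
    (continuous_apply i).comp ((continuous_apply v).comp continuous_snd)
  have h2 : IsClosed {m : (Profile n → Fin n → ℝ) × (Profile n → Fin n → ℝ) |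
      Mech.Valid ⟨m.1, m.2⟩ ∧ ServesOnly K ⟨m.1, m.2⟩} := by
    have e : {m : (Profile n → Fin n → ℝ) × (Profile n → Fin n → ℝ) |
        Mech.Valid ⟨m.1, m.2⟩ ∧ ServesOnly K ⟨m.1, m.2⟩} =
        ((⋂ (v : Profile n) (_ : Pos v) (i : Fin n), {m | 0 ≤ m.1 v i}) ∩
        (⋂ (v : Profile n) (_ : Pos v), {m | ∑ i, m.1 v i ≤ 1}) ∩
        (⋂ (v : Profile n) (_ : Pos v) (i : Fin n) (b : ℝ) (_ : 0 < b),
          {m | m.1 (Function.update v i b) i * v i - m.2 (Function.update v i b) i ≤
            m.1 v i * v i - m.2 v i}) ∩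
        (⋂ (v : Profile n) (_ : Pos v) (i : Fin n), {m | 0 ≤ m.1 v i * v i - m.2 v i})) ∩
        (⋂ (v : Profile n) (i : Fin n) (_ : i ∉ K), {m | m.1 v i = 0 ∧ m.2 v i = 0}) := by
      ext m
      simp only [Set.mem_ofPred_eq, Set.mem_inter_iff, Set.mem_iInter]
      constructor
      · rintro ⟨h, hs⟩
        exact ⟨⟨⟨⟨h.nonneg, h.sum_le⟩, h.truthful⟩, h.rational⟩, hs⟩
      · rintro ⟨⟨⟨⟨ha, hb⟩, hc⟩, hd⟩, hs⟩
        exact ⟨⟨ha, hb, hc, hd⟩, hs⟩
    rw [e]
    refine IsClosed.inter (IsClosed.inter (IsClosed.inter (IsClosed.inter ?_ ?_) ?_) ?_) ?_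
    · exact isClosed_iInter fun v => isClosed_iInter fun _ => isClosed_iInter fun i =>
        isClosed_le continuous_const (hx v i)
    · exact isClosed_iInter fun v => isClosed_iInter fun _ =>
        isClosed_le (continuous_finsetSum _ fun i _ => hx v i) continuous_const
    · exact isClosed_iInter fun v => isClosed_iInter fun _ => isClosed_iInter fun i =>
        isClosed_iInter fun b => isClosed_iInter fun _ =>
          isClosed_le (((hx _ i).mul continuous_const).sub (hp _ i))
            (((hx v i).mul continuous_const).sub (hp v i))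
    · exact isClosed_iInter fun v => isClosed_iInter fun _ => isClosed_iInter fun i =>
        isClosed_le continuous_const (((hx v i).mul continuous_const).sub (hp v i))
    · exact isClosed_iInter fun v => isClosed_iInter fun i => isClosed_iInter fun _ =>
        (isClosed_eq (hx v i) continuous_const).inter (isClosed_eq (hp v i) continuous_const)
  have h3 := h1.inter_right h2
  have e : box K = ((Set.pi Set.univ fun _ : Profile n => Set.pi Set.univ fun _ : Fin n =>
      Set.Icc (0 : ℝ) 1) ×ˢ (Set.pi Set.univ fun v : Profile n => Set.pi Set.univ fun i : Fin n =>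
        Set.Icc (0 : ℝ) |v i|)) ∩ {m : (Profile n → Fin n → ℝ) × (Profile n → Fin n → ℝ) |
      Mech.Valid ⟨m.1, m.2⟩ ∧ ServesOnly K ⟨m.1, m.2⟩} := by
    ext m
    constructor
    · rintro ⟨ha, hb, hc⟩
      exact ⟨⟨ha, hb⟩, hc⟩
    · rintro ⟨⟨ha, hb⟩, hc⟩
      exact ⟨ha, hb, hc⟩
  rw [e]
  exact h3

/-- The mechanism which never allocates. -/
def zeroMech (n : ℕ) : Mech n := ⟨fun _ _ => 0, fun _ _ => 0⟩

theorem zeroMech_valid : (zeroMech n).Valid where
  nonneg _ _ _ := le_refl _
  sum_le _ _ := by simp [zeroMech]
  truthful _ _ _ _ _ := by simp [zeroMech]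
  rational _ _ _ := by simp [zeroMech]

theorem exists_optimal (K : Finset (Fin n)) (D : Profile n →₀ ℝ) (h0 : ∀ v, 0 ≤ D v)
    (hp : ∀ v ∈ D.support, Pos v) : ∃ M : Mech n, OptimalFor K D M := by
  have hcont : ContinuousOn
      (fun m : (Profile n → Fin n → ℝ) × (Profile n → Fin n → ℝ) =>
        revenue D ⟨m.1, m.2⟩) (box K) := by
    apply Continuous.continuousOn
    unfold revenue Finsupp.sum
    refine continuous_finsetSum _ fun v _ => continuous_const.mul ?_
    refine continuous_finsetSum _ fun i _ => ?_
    exact (continuous_apply i).comp ((continuous_apply v).comp continuous_snd)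
  have hne : (box K).Nonempty :=
    ⟨_, norm_mem_box (zeroMech_valid (n := n)) (K := K) (fun _ _ _ => ⟨rfl, rfl⟩)⟩
  obtain ⟨m, hm, hmax⟩ := (box_compact K).exists_isMaxOn hne hcont
  refine ⟨⟨m.1, m.2⟩, hm.2.2.1, hm.2.2.2, fun M' hM' hK' => ?_⟩
  have h1 := hmax (norm_mem_box hM' hK')
  refine le_trans ?_ h1
  refine revenue_mono h0 hp fun v hv i => ?_
  simp only [norm, hv, if_true]
  have := slack_nonneg hM' hv i
  linarith

end Existence

/-! ### The instance -/

section Instance

/-- Labels of the middle bidders. -/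
abbrev Lab (m T : ℕ) : Type := Fin m → Fin (2 * T + 2)

/-- The parity of a label vector. -/
def par {m T : ℕ} (l : Lab m T) : Prop := Even (∑ j, (l j : ℕ))

instance {m T : ℕ} : DecidablePred (par (m := m) (T := T)) := fun l =>
  inferInstanceAs (Decidable (Even (∑ j, (l j : ℕ))))

/-- The number of labels of one bidder. -/
def LL (T : ℕ) : ℝ := 2 * T + 2

theorem LL_pos (T : ℕ) : 0 < LL T := by unfold LL; positivity

theorem LL_ge (T : ℕ) : 2 ≤ LL T := by
  unfold LL
  have : (0 : ℝ) ≤ T := by positivity
  linarith

/-- The value of a middle bidder with label `a`. -/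
noncomputable def mid (T a : ℕ) : ℝ := 1 + (a + 1) / (LL T) ^ 2

/-- The profile with value `h` for bidder `0`, middle labels `l` and value `1` of the last. -/
noncomputable def prof {m : ℕ} (T : ℕ) (h : ℝ) (l : Lab m T) : Profile (m + 2) :=
  Fin.cons h (Fin.snoc (fun j => mid T (l j)) 1)

variable {m T : ℕ}

/-- The index of a middle bidder. -/
abbrev mi (j : Fin m) : Fin (m + 2) := (j.castSucc).succ

@[simp] theorem prof_zero (h : ℝ) (l : Lab m T) : prof T h l 0 = h := rfl

@[simp] theorem prof_mi (h : ℝ) (l : Lab m T) (j : Fin m) : prof T h l (mi j) = mid T (l j) := by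
  simp [prof, mi]

@[simp] theorem prof_last (h : ℝ) (l : Lab m T) : prof T h l (Fin.last (m + 1)) = 1 := by
  rw [← Fin.succ_last]
  simp only [prof, Fin.cons_succ, Fin.snoc_last]

theorem sum_split (f : Fin (m + 2) → ℝ) :
    ∑ i, f i = f 0 + (∑ j : Fin m, f (mi j) + f (Fin.last (m + 1))) := by
  rw [Fin.sum_univ_succ, Fin.sum_univ_castSucc, Fin.succ_last]

theorem mid_gt (a : ℕ) : 1 < mid T a := by
  have hT' := LL_pos T
  unfold mid
  have : (0 : ℝ) < ((a : ℝ) + 1) / (LL T) ^ 2 := by positivity
  linarith

theorem mid_le (a : Fin (2 * T + 2)) : mid T a ≤ 1 + 1 / LL T := by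
  have hT' := LL_pos T
  unfold mid
  have h1 : ((a : ℕ) : ℝ) + 1 ≤ LL T := by unfold LL; exact_mod_cast a.2
  have h2 : (((a : ℕ) : ℝ) + 1) / (LL T) ^ 2 ≤ 1 / LL T := by
    rw [div_le_div_iff₀ (by positivity) (by positivity)]
    nlinarith
  linarith

theorem mid_lt {a b : ℕ} (h : a < b) : mid T a < mid T b := by
  have hT' := LL_pos T
  have h' : (a : ℝ) < b := by exact_mod_cast h
  unfold mid
  have : ((a : ℝ) + 1) / (LL T) ^ 2 < ((b : ℝ) + 1) / (LL T) ^ 2 := by
    apply div_lt_div_of_pos_right _ (by positivity)
    linarith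
  linarith

theorem mid_inj {a b : ℕ} (h : mid T a = mid T b) : a = b := by
  rcases lt_trichotomy a b with h1 | h1 | h1
  · exact absurd h (mid_lt h1).ne
  · exact h1
  · exact absurd h (mid_lt h1).ne'

theorem prof_pos {h : ℝ} (hh : 0 < h) (l : Lab m T) : Pos (prof T h l) := by
  intro i
  refine Fin.cases ?_ (fun i => ?_) i
  · exact hh
  · refine Fin.lastCases ?_ (fun j => ?_) i
    · rw [Fin.succ_last, prof_last]; exact one_pos
    · rw [show (j.castSucc).succ = mi j from rfl, prof_mi]
      exact lt_trans one_pos (mid_gt _)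

/-- The cyclic shift of the label of bidder `j`. -/
def shift (j : Fin m) : Lab m T ≃ Lab m T where
  toFun l := Function.update l j (finRotate _ (l j))
  invFun l := Function.update l j ((finRotate _).symm (l j))
  left_inv l := by simp
  right_inv l := by simp

theorem par_shift (j : Fin m) (l : Lab m T) : par (shift j l) ↔ ¬ par l := by
  have e1 : ∑ i, (l i : ℕ) = l j + ∑ i ∈ univ.erase j, (l i : ℕ) :=
    (Finset.add_sum_erase univ _ (mem_univ j)).symm
  have e2 : ∑ i, (shift j l i : ℕ) = shift j l j + ∑ i ∈ univ.erase j, (shift j l i : ℕ) :=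
    (Finset.add_sum_erase univ (fun i => (shift j l i : ℕ)) (mem_univ j)).symm
  have e3 : ∑ i ∈ univ.erase j, (shift j l i : ℕ) = ∑ i ∈ univ.erase j, (l i : ℕ) := by
    refine Finset.sum_congr rfl fun i hi => ?_
    have : i ≠ j := (Finset.mem_erase.1 hi).1
    simp [shift, this]
  have e4 : (shift j l j : ℕ) = if l j = Fin.last (2 * T + 1) then 0 else (l j : ℕ) + 1 := by
    rw [show shift j l j = finRotate (2 * T + 2) (l j) by simp [shift]]
    exact coe_finRotate (n := 2 * T + 1) (l j)
  unfold par
  rw [e1, e2, e3, e4]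
  split_ifs with h
  · rw [h]
    simp only [Fin.val_last]
    rw [Nat.even_add, Nat.even_add]
    have : ¬ Even (2 * T + 1) := by
      rw [Nat.even_add_one, not_not]; exact even_two_mul T
    simp [this]
  · generalize (l j : ℕ) = a
    generalize ∑ i ∈ univ.erase j, (l i : ℕ) = b
    rw [Nat.even_add (m := a + 1) (n := b), Nat.even_add (m := a) (n := b), Nat.even_add_one]
    tauto

theorem card_last (j : Fin m) :
    LL T * ((univ.filter fun l : Lab m T => l j = Fin.last (2 * T + 1)).card : ℝ) =
      (Fintype.card (Lab m T) : ℝ) := by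
  have h := Fintype.card_filter_piFinset_const_eq_of_mem (univ : Finset (Fin (2 * T + 2))) j
    (mem_univ (Fin.last (2 * T + 1)))
  rw [Fintype.piFinset_univ] at h
  rw [h]
  have hm : 0 < m := lt_of_le_of_lt (Nat.zero_le _) j.2
  obtain ⟨m', rfl⟩ : ∃ m', m = m' + 1 := ⟨m - 1, by omega⟩
  simp only [Finset.card_univ, Fintype.card_fin, Fintype.card_pi, Finset.prod_const,
    Nat.add_sub_cancel]
  unfold LL
  push_cast
  ring

theorem card_par (j : Fin m) :
    2 * ((univ.filter fun l : Lab m T => par l).card : ℝ) = (Fintype.card (Lab m T) : ℝ) ∧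
    2 * ((univ.filter fun l : Lab m T => ¬ par l).card : ℝ) = (Fintype.card (Lab m T) : ℝ) := by
  have h1 : (univ.filter fun l : Lab m T => par l).card =
      (univ.filter fun l : Lab m T => ¬ par l).card := by
    refine Finset.card_equiv (shift j) fun l => ?_
    simp only [mem_filter, mem_univ, true_and, par_shift, not_not]
  have h2 := Finset.card_filter_add_card_filter_not (s := (univ : Finset (Lab m T))) (fun l => par l)
  rw [Finset.card_univ] at h2
  have h2' : ((univ.filter fun l : Lab m T => par l).card : ℝ) +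
      ((univ.filter fun l : Lab m T => ¬ par l).card : ℝ) = (Fintype.card (Lab m T) : ℝ) := by
    exact_mod_cast h2
  rw [h1] at h2' ⊢
  constructor <;> linarith

theorem shift_sum (j : Fin m) (f : Lab m T → ℝ) (h0 : ∀ l, 0 ≤ f l) (h1 : ∀ l, f l ≤ 1)
    (hm : ∀ l, l j ≠ Fin.last (2 * T + 1) → f l ≤ f (shift j l)) :
    ∑ l ∈ univ.filter (fun l : Lab m T => ¬ par l), f l ≤
      ∑ l ∈ univ.filter (fun l : Lab m T => par l), f l +
        (Fintype.card (Lab m T) : ℝ) / LL T := by
  have e1 : ∑ l ∈ univ.filter (fun l : Lab m T => ¬ par l), f (shift j l) =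
      ∑ l ∈ univ.filter (fun l : Lab m T => par l), f l := by
    refine Finset.sum_equiv (shift j) (fun l => ?_) (fun l _ => rfl)
    simp only [mem_filter, mem_univ, true_and, par_shift]
  have e2 : ∑ l ∈ univ.filter (fun l : Lab m T => ¬ par l), f l ≤
      ∑ l ∈ univ.filter (fun l : Lab m T => ¬ par l),
        (f (shift j l) + if l j = Fin.last (2 * T + 1) then 1 else 0) := by
    refine Finset.sum_le_sum fun l _ => ?_
    split_ifs with h
    · have := h1 l; have := h0 (shift j l); linarith
    · have := hm l h; linarith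
  have e3 : ∑ l ∈ univ.filter (fun l : Lab m T => ¬ par l),
      (if l j = Fin.last (2 * T + 1) then (1 : ℝ) else 0) ≤
      ((univ.filter fun l : Lab m T => l j = Fin.last (2 * T + 1)).card : ℝ) := by
    rw [Finset.sum_boole]
    have : (univ.filter (fun l : Lab m T => ¬ par l)).filter
        (fun l => l j = Fin.last (2 * T + 1)) ⊆
        univ.filter fun l : Lab m T => l j = Fin.last (2 * T + 1) := by
      intro l hl
      simp only [mem_filter, mem_univ, true_and] at hl ⊢
      exact hl.2
    exact_mod_cast Finset.card_le_card this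
  have e4 : ((univ.filter fun l : Lab m T => l j = Fin.last (2 * T + 1)).card : ℝ) =
      (Fintype.card (Lab m T) : ℝ) / LL T := by
    rw [eq_div_iff (LL_pos T).ne', ← card_last j]; ring
  rw [Finset.sum_add_distrib, e1] at e2
  linarith

/-! #### The distribution -/

/-- The distribution. -/
noncomputable def dist (m T : ℕ) : Profile (m + 2) →₀ ℝ :=
  ∑ l : Lab m T, if par l then Finsupp.single (prof T 2 l) (1 / (Fintype.card (Lab m T) : ℝ))
    else Finsupp.single (prof T 2 l) ((1 - 1 / LL T) / (Fintype.card (Lab m T) : ℝ)) +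
      Finsupp.single (prof T (2 * LL T) l) ((1 / LL T) / (Fintype.card (Lab m T) : ℝ))

theorem card_pos : (0 : ℝ) < (Fintype.card (Lab m T) : ℝ) := by
  exact_mod_cast Fintype.card_pos

theorem one_div_LL_le : 1 / LL T ≤ 1 / 2 := by
  apply one_div_le_one_div_of_le (by norm_num) (LL_ge T)

theorem one_div_LL_pos : 0 < 1 / LL T := by
  have := LL_pos T
  positivity

theorem dist_sum (R : Profile (m + 2) → ℝ) :
    ((dist m T).sum fun v w => w * R v) = ∑ l : Lab m T,
      (1 / (Fintype.card (Lab m T) : ℝ)) *
        if par l then R (prof T 2 l) else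
          (1 - 1 / LL T) * R (prof T 2 l) + (1 / LL T) * R (prof T (2 * LL T) l) := by
  unfold dist
  rw [← Finsupp.sum_finsetSum_index (h := fun v w => w * R v) (fun a => by simp)
    (fun a b c => by ring)]
  refine Finset.sum_congr rfl fun l _ => ?_
  split_ifs with h
  · rw [Finsupp.sum_single_index (by simp)]
  · rw [Finsupp.sum_add_index' (by simp) (fun a b c => by ring),
      Finsupp.sum_single_index (by simp), Finsupp.sum_single_index (by simp)]
    ring

theorem dist_supp {v : Profile (m + 2)} (hv : v ∈ (dist m T).support) :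
    ∃ (h : ℝ) (l : Lab m T), 2 ≤ h ∧ v = prof T h l := by
  rw [Finsupp.mem_support_iff] at hv
  unfold dist at hv
  rw [Finsupp.finsetSum_apply] at hv
  obtain ⟨l, _, hl⟩ := Finset.exists_ne_zero_of_sum_ne_zero hv
  by_contra hcon
  push Not at hcon
  have h1 := hcon 2 l le_rfl
  have h2 := hcon (2 * LL T) l (by have := LL_ge T; linarith)
  apply hl
  split_ifs
  · rw [Finsupp.single_apply, if_neg (Ne.symm h1)]
  · rw [Finsupp.add_apply, Finsupp.single_apply, Finsupp.single_apply, if_neg (Ne.symm h1),
      if_neg (Ne.symm h2), add_zero]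

theorem dist_isDist : IsDist (dist m T) where
  nonneg v := by
    unfold dist
    rw [Finsupp.finsetSum_apply]
    refine Finset.sum_nonneg fun l _ => ?_
    have h1 := one_div_LL_le (T := T)
    have h2 := one_div_LL_pos (T := T)
    have h3 := card_pos (m := m) (T := T)
    split_ifs
    · rw [Finsupp.single_apply]
      split_ifs <;> positivity
    · have h4 : 0 ≤ (1 - 1 / LL T) / (Fintype.card (Lab m T) : ℝ) :=
        div_nonneg (by linarith) h3.le
      have h5 : 0 ≤ (1 / LL T) / (Fintype.card (Lab m T) : ℝ) := div_nonneg h2.le h3.le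
      rw [Finsupp.add_apply, Finsupp.single_apply, Finsupp.single_apply]
      refine add_nonneg ?_ ?_ <;> split_ifs <;> first | exact h4 | exact h5 | exact le_rfl
  total := by
    have h := dist_sum (m := m) (T := T) (fun _ => 1)
    simp only [mul_one] at h
    rw [h]
    have h3 := card_pos (m := m) (T := T)
    have : ∀ l : Lab m T, (1 / (Fintype.card (Lab m T) : ℝ)) *
        (if par l then (1 : ℝ) else (1 - 1 / LL T) + (1 / LL T)) =
        1 / (Fintype.card (Lab m T) : ℝ) := by
      intro l
      split_ifs
      · ring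
      · ring
    rw [Finset.sum_congr rfl fun l _ => this l, Finset.sum_const, Finset.card_univ,
      nsmul_eq_mul]
    field_simp
  pos v hv := by
    obtain ⟨h, l, hh, rfl⟩ := dist_supp hv
    exact prof_pos (by linarith) l

/-! #### The set of highest bidders -/

theorem lt_prof {h : ℝ} (hh : 2 ≤ h) (l : Lab m T) {i : Fin (m + 2)}
    (hi : i ≠ Fin.last (m + 1)) : 1 < prof T h l i := by
  revert hi
  refine Fin.cases ?_ (fun i => ?_) i
  · intro _; rw [prof_zero]; linarith
  · refine Fin.lastCases ?_ (fun j => ?_) i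
    · intro hi; exact absurd (Fin.succ_last m) hi
    · intro _
      rw [show (j.castSucc).succ = mi j from rfl, prof_mi]
      exact mid_gt _

theorem top_prof {h : ℝ} (hh : 2 ≤ h) (l : Lab m T) :
    top (m + 1) (prof T h l) = univ.erase (Fin.last (m + 1)) := by
  ext i
  unfold top
  simp only [mem_filter, mem_univ, true_and, mem_erase, and_true]
  constructor
  · rintro hlt rfl
    refine absurd hlt (not_lt.2 ?_)
    calc m + 1 = (univ.erase (Fin.last (m + 1))).card := by
          rw [Finset.card_erase_of_mem (mem_univ _), Finset.card_univ, Fintype.card_fin]; omega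
      _ ≤ _ := Finset.card_le_card fun j hj => by
          have hj' := (Finset.mem_erase.1 hj).1
          simp only [mem_filter, mem_univ, true_and]
          left
          rw [prof_last]
          exact lt_prof hh l hj'
  · intro hi
    refine lt_of_le_of_lt (Finset.card_le_card
      (t := (univ.erase (Fin.last (m + 1))).erase i) fun j hj => ?_) ?_
    · simp only [mem_filter, mem_univ, true_and] at hj
      rw [Finset.mem_erase, Finset.mem_erase]
      refine ⟨?_, ?_, mem_univ _⟩
      · rintro rfl
        rcases hj with hj | hj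
        · exact lt_irrefl _ hj
        · exact lt_irrefl _ hj.2
      · rintro rfl
        have h3 := lt_prof hh l hi
        rcases hj with hj | hj
        · rw [prof_last] at hj; linarith
        · rw [prof_last] at hj; linarith [hj.1]
    · rw [Finset.card_erase_of_mem (by simp [hi]), Finset.card_erase_of_mem (mem_univ _),
        Finset.card_univ, Fintype.card_fin]
      omega

theorem cond_prof {h : ℝ} (l : Lab m T) :
    condDist (dist m T) (univ.erase (Fin.last (m + 1))) (prof T h l) = dist m T := by
  classical
  have e : (dist m T).filter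
      (· ∈ condEvent (univ.erase (Fin.last (m + 1))) (prof T h l)) = dist m T := by
    rw [Finsupp.filter_eq_self_iff]
    intro v hv
    obtain ⟨h', l', hh', rfl⟩ := dist_supp (Finsupp.mem_support_iff.2 hv)
    refine ⟨fun j hj => ?_, fun i hi j hj => ?_⟩
    · have : j = Fin.last (m + 1) := by simpa using hj
      rw [this, prof_last, prof_last]
    · have : j = Fin.last (m + 1) := by simpa using hj
      rw [this, prof_last]
      exact (lt_prof hh' l' (by simpa using hi)).le
  unfold condDist
  have e2 : (dist m T).filter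
      (fun x => x ∈ condEvent (univ.erase (Fin.last (m + 1))) (prof T h l)) = dist m T := e
  simp only [e2]
  rw [dist_isDist.total]
  simp

/-! #### Serving only the highest bidders -/

theorem update_zero (h h' : ℝ) (l : Lab m T) :
    Function.update (prof T h l) 0 h' = prof T h' l := by
  funext i
  refine Fin.cases ?_ (fun i => ?_) i
  · rw [Function.update_self, prof_zero]
  · rw [Function.update_of_ne (Fin.succ_ne_zero i)]
    rfl

theorem update_mid (h : ℝ) (l : Lab m T) (j : Fin m) (hj : l j ≠ Fin.last (2 * T + 1)) :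
    Function.update (prof T h l) (mi j) (mid T ((l j : ℕ) + 1)) = prof T h (shift j l) := by
  funext i
  refine Fin.cases ?_ (fun i => ?_) i
  · rw [Function.update_of_ne (Fin.succ_ne_zero _).symm, prof_zero, prof_zero]
  · refine Fin.lastCases ?_ (fun i => ?_) i
    · rw [Fin.succ_last, Function.update_of_ne, prof_last, prof_last]
      intro h1
      have := Fin.succ_injective _ ((Fin.succ_last m).trans h1)
      exact (Fin.castSucc_lt_last j).ne' this
    · rw [show (i.castSucc).succ = mi i from rfl]
      by_cases hij : i = j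
      · subst hij
        rw [Function.update_self, prof_mi]
        have : (shift i l i : ℕ) = (l i : ℕ) + 1 := by
          rw [show shift i l i = finRotate (2 * T + 2) (l i) by simp [shift]]
          exact coe_finRotate_of_ne_last (n := 2 * T + 1) hj
        rw [this]
      · have h2 : mi i ≠ mi j := by
          intro h3
          exact hij (Fin.castSucc_injective _ (Fin.succ_injective _ h3))
        rw [Function.update_of_ne h2, prof_mi, prof_mi]
        simp [shift, hij]

section Upper

variable {M : Mech (m + 2)} (hM : M.Valid) (hK : ServesOnly (univ.erase (Fin.last (m + 1))) M)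

/-- The total probability of serving a middle bidder. -/
noncomputable def yy (M : Mech (m + 2)) (h : ℝ) (l : Lab m T) : ℝ :=
  ∑ j : Fin m, M.x (prof T h l) (mi j)

include hM

theorem yy_nonneg {h : ℝ} (hh : 0 < h) (l : Lab m T) : 0 ≤ yy M h l :=
  Finset.sum_nonneg fun _ _ => hM.nonneg _ (prof_pos hh l) _

include hK

theorem x_add_yy {h : ℝ} (hh : 0 < h) (l : Lab m T) :
    M.x (prof T h l) 0 + yy M h l ≤ 1 := by
  have h1 := hM.sum_le _ (prof_pos hh l)
  rw [sum_split, (hK (prof T h l) (Fin.last (m + 1)) (by simp)).1] at h1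
  unfold yy
  linarith

theorem pay_le {h : ℝ} (hh : 0 < h) (l : Lab m T) :
    ∑ i, M.p (prof T h l) i ≤
      M.p (prof T h l) 0 + (1 + 1 / LL T) * yy M h l := by
  rw [sum_split, (hK (prof T h l) (Fin.last (m + 1)) (by simp)).2, yy, Finset.mul_sum]
  have : ∑ j : Fin m, M.p (prof T h l) (mi j) ≤
      ∑ j : Fin m, (1 + 1 / LL T) * M.x (prof T h l) (mi j) := by
    refine Finset.sum_le_sum fun j _ => ?_
    have h1 := hM.rational _ (prof_pos hh l) (mi j)
    rw [prof_mi] at h1
    have h2 := mid_le (T := T) (l j)
    have h3 := hM.nonneg _ (prof_pos hh l) (mi j)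
    nlinarith
  linarith

theorem classA (l : Lab m T) :
    ∑ i, M.p (prof T 2 l) i ≤ 2 - (1 - 1 / LL T) * yy M 2 l := by
  have h1 := pay_le hM hK two_pos l
  have h2 := x_add_yy hM hK two_pos l
  have h3 := hM.rational _ (prof_pos two_pos l) 0
  rw [prof_zero] at h3
  linarith

theorem classB (l : Lab m T) :
    (1 - 1 / LL T) * ∑ i, M.p (prof T 2 l) i +
      (1 / LL T) * ∑ i, M.p (prof T (2 * LL T) l) i ≤ 2 + (1 + 1 / LL T) * yy M 2 l := by
  have hL := LL_pos T
  have hq := one_div_LL_pos (T := T)
  have hq2 := one_div_LL_le (T := T)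
  have hh : 0 < 2 * LL T := by positivity
  have h1 := pay_le hM hK two_pos l
  have h1' := pay_le hM hK hh l
  have h2' := x_add_yy hM hK hh l
  have h3 := hM.rational _ (prof_pos two_pos l) 0
  rw [prof_zero] at h3
  have h4 := hM.truthful _ (prof_pos hh l) 0 2 two_pos
  rw [update_zero, prof_zero] at h4
  have h5 := yy_nonneg hM two_pos l
  have h5' := yy_nonneg hM hh l
  have hqL : (1 / LL T) * LL T = 1 := by field_simp
  set q := 1 / LL T with hqd
  set x0 := M.x (prof T 2 l) 0
  set p0 := M.p (prof T 2 l) 0
  set x1 := M.x (prof T (2 * LL T) l) 0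
  set p1 := M.p (prof T (2 * LL T) l) 0
  set y := yy M 2 l
  set y' := yy M (2 * LL T) l
  have e1 : (1 - q) * ∑ i, M.p (prof T 2 l) i ≤ (1 - q) * (p0 + (1 + q) * y) :=
    mul_le_mul_of_nonneg_left h1 (by linarith)
  have e2 : q * ∑ i, M.p (prof T (2 * LL T) l) i ≤ q * (p1 + (1 + q) * y') :=
    mul_le_mul_of_nonneg_left h1' hq.le
  have e3 : q * p1 ≤ 2 * x1 - 2 * x0 + q * p0 := by
    have : q * p1 ≤ q * (x1 * (2 * LL T) - x0 * (2 * LL T) + p0) :=
      mul_le_mul_of_nonneg_left (by linarith) hq.le
    have e : q * (x1 * (2 * LL T) - x0 * (2 * LL T) + p0) =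
        2 * (q * LL T) * x1 - 2 * (q * LL T) * x0 + q * p0 := by ring
    rw [e, hqL] at this
    linarith
  have e4 : q * ((1 + q) * y') ≤ 2 * y' := by
    have : q * (1 + q) ≤ 2 := by nlinarith
    nlinarith
  have e5 : (1 - q) * ((1 + q) * y) ≤ (1 + q) * y := by
    have : 0 ≤ (1 + q) * y := by positivity
    nlinarith
  nlinarith

omit hK in
theorem yy_sum :
    ∑ l ∈ univ.filter (fun l : Lab m T => ¬ par l), yy M 2 l ≤
      ∑ l ∈ univ.filter (fun l : Lab m T => par l), yy M 2 l +
        m * ((Fintype.card (Lab m T) : ℝ) / LL T) := by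
  unfold yy
  rw [Finset.sum_comm, Finset.sum_comm (s := univ.filter (fun l : Lab m T => par l))]
  have : (m : ℝ) * ((Fintype.card (Lab m T) : ℝ) / LL T) =
      ∑ _j : Fin m, ((Fintype.card (Lab m T) : ℝ) / LL T) := by
    rw [Finset.sum_const, Finset.card_univ, Fintype.card_fin, nsmul_eq_mul]
  rw [this, ← Finset.sum_add_distrib]
  refine Finset.sum_le_sum fun j _ => ?_
  refine shift_sum j (fun l => M.x (prof T 2 l) (mi j)) (fun l => ?_) (fun l => ?_)
    (fun l hl => ?_)
  · exact hM.nonneg _ (prof_pos two_pos l) _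
  · exact hM.x_le_one (prof_pos two_pos l) _
  · have h1 := hM.mono (prof_pos two_pos l) (mi j) (b := mid T ((l j : ℕ) + 1))
      (by rw [prof_mi]; exact mid_lt (Nat.lt_succ_self _))
    rw [update_mid 2 l j hl] at h1
    exact h1

theorem upper : revenue (dist m T) M ≤ 2 + (2 * m + 2) / LL T := by
  unfold revenue
  rw [dist_sum (fun v => ∑ i, M.p v i), ← Finset.mul_sum]
  have hN := card_pos (m := m) (T := T)
  have hL := LL_pos T
  have hq := one_div_LL_pos (T := T)
  have hq2 := one_div_LL_le (T := T)
  set N : ℝ := (Fintype.card (Lab m T) : ℝ) with hNd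
  have h1 : ∑ l : Lab m T, (if par l then ∑ i, M.p (prof T 2 l) i else
      (1 - 1 / LL T) * ∑ i, M.p (prof T 2 l) i +
        (1 / LL T) * ∑ i, M.p (prof T (2 * LL T) l) i) ≤
      ∑ l : Lab m T, (if par l then 2 - (1 - 1 / LL T) * yy M 2 l else
        2 + (1 + 1 / LL T) * yy M 2 l) := by
    refine Finset.sum_le_sum fun l _ => ?_
    split_ifs
    · exact classA hM hK l
    · exact classB hM hK l
  have h2 : ∑ l : Lab m T, (if par l then 2 - (1 - 1 / LL T) * yy M 2 l else
        2 + (1 + 1 / LL T) * yy M 2 l) =
      2 * N - (1 - 1 / LL T) * ∑ l ∈ univ.filter (fun l : Lab m T => par l), yy M 2 l +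
        (1 + 1 / LL T) * ∑ l ∈ univ.filter (fun l : Lab m T => ¬ par l), yy M 2 l := by
    rw [Finset.sum_ite, Finset.sum_sub_distrib, Finset.sum_add_distrib, ← Finset.mul_sum,
      ← Finset.mul_sum, Finset.sum_const, Finset.sum_const, nsmul_eq_mul, nsmul_eq_mul]
    have h3 := Finset.card_filter_add_card_filter_not (s := (univ : Finset (Lab m T)))
      (fun l => par l)
    rw [Finset.card_univ] at h3
    have h4 : ((univ.filter fun l : Lab m T => par l).card : ℝ) +
        ((univ.filter fun l : Lab m T => ¬ par l).card : ℝ) = N := by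
      rw [hNd]; exact_mod_cast h3
    rw [← h4]
    ring
  have h5 := yy_sum (T := T) hM
  have h6 : ∑ l ∈ univ.filter (fun l : Lab m T => par l), yy M 2 l ≤ N := by
    calc ∑ l ∈ univ.filter (fun l : Lab m T => par l), yy M 2 l
        ≤ ∑ l ∈ univ.filter (fun l : Lab m T => par l), (1 : ℝ) := by
          refine Finset.sum_le_sum fun l _ => ?_
          have := x_add_yy hM hK two_pos l
          have := hM.nonneg _ (prof_pos two_pos l) 0
          linarith
      _ = ((univ.filter fun l : Lab m T => par l).card : ℝ) := by simp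
      _ ≤ N := by
          rw [hNd]
          exact_mod_cast Finset.card_le_univ _
  set SA := ∑ l ∈ univ.filter (fun l : Lab m T => par l), yy M 2 l
  set SB := ∑ l ∈ univ.filter (fun l : Lab m T => ¬ par l), yy M 2 l
  rw [h2] at h1
  have h7 : (1 + 1 / LL T) * SB ≤ (1 + 1 / LL T) * (SA + m * (N / LL T)) :=
    mul_le_mul_of_nonneg_left h5 (by linarith)
  have h8 : (1 / LL T) * SA ≤ (1 / LL T) * N := mul_le_mul_of_nonneg_left h6 hq.le
  have h9 : (1 / LL T) * (m * (N / LL T)) ≤ 1 * (m * (N / LL T)) :=
    mul_le_mul_of_nonneg_right (by linarith) (by positivity)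
  have h10 : 2 * N - (1 - 1 / LL T) * SA + (1 + 1 / LL T) * SB ≤
      N * (2 + (2 * m + 2) / LL T) := by
    have e : N * (2 + (2 * m + 2) / LL T) =
        2 * N + 2 * (1 / LL T * N) + 2 * (m * (N / LL T)) := by ring
    rw [e]
    nlinarith
  have h11 := h1.trans h10
  calc 1 / N * _ ≤ 1 / N * (N * (2 + (2 * m + 2) / LL T)) :=
        mul_le_mul_of_nonneg_left h11 (by positivity)
    _ = 2 + (2 * m + 2) / LL T := by field_simp

end Upper

/-! #### A better mechanism which may serve the last bidder -/

/-- The middle bidders' values have labels of odd total. -/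
def IsB (m T : ℕ) (v : Profile (m + 2)) : Prop :=
  ∃ l : Lab m T, (∀ j, v (mi j) = mid T (l j)) ∧ ¬ par l

open Classical in
/-- The price offered to bidder `0`. -/
noncomputable def thr (m T : ℕ) (v : Profile (m + 2)) : ℝ := if IsB m T v then 2 * LL T else 2

open Classical in
/-- Offer the item to bidder `0` at price `thr`, then to the last bidder at price `1`. -/
noncomputable def good (m T : ℕ) : Mech (m + 2) where
  x v i := if i = 0 then (if thr m T v ≤ v 0 then 1 else 0) else
    if i = Fin.last (m + 1) then
      (if v 0 < thr m T v ∧ 1 ≤ v (Fin.last (m + 1)) then 1 else 0) else 0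
  p v i := if i = 0 then (if thr m T v ≤ v 0 then thr m T v else 0) else
    if i = Fin.last (m + 1) then
      (if v 0 < thr m T v ∧ 1 ≤ v (Fin.last (m + 1)) then 1 else 0) else 0

theorem last_ne_zero : Fin.last (m + 1) ≠ 0 := by
  intro h
  have := congrArg Fin.val h
  simp at this

theorem last_ne_mi (j : Fin m) : Fin.last (m + 1) ≠ mi j := by
  intro h
  have := Fin.succ_injective _ ((Fin.succ_last m).trans h)
  exact (Fin.castSucc_lt_last j).ne' this

theorem thr_update (v : Profile (m + 2)) (b : ℝ) {i : Fin (m + 2)} (hi : ∀ j : Fin m, mi j ≠ i) :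
    thr m T (Function.update v i b) = thr m T v := by
  have : IsB m T (Function.update v i b) = IsB m T v := by
    unfold IsB
    have h1 : ∀ j : Fin m, Function.update v i b (mi j) = v (mi j) := fun j =>
      Function.update_of_ne (hi j) _ _
    simp only [h1]
  unfold thr
  by_cases h : IsB m T v
  · rw [if_pos h, if_pos (this ▸ h)]
  · rw [if_neg h, if_neg (this ▸ h)]

theorem mi_ne_zero (j : Fin m) : mi j ≠ 0 := Fin.succ_ne_zero _

theorem good_valid : (good m T).Valid where
  nonneg v _ i := by
    simp only [good]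
    split_ifs <;> norm_num
  sum_le v _ := by
    rw [sum_split]
    have h0 : ∑ j : Fin m, (good m T).x v (mi j) = 0 := by
      refine Finset.sum_eq_zero fun j _ => ?_
      simp only [good, if_neg (mi_ne_zero j), if_neg (last_ne_mi j).symm]
    rw [h0]
    simp only [good, if_true, if_neg last_ne_zero]
    by_cases h : thr m T v ≤ v 0
    · rw [if_pos h, if_neg (fun h' => absurd h (not_le.2 h'.1))]; norm_num
    · rw [if_neg h]
      split_ifs <;> norm_num
  truthful v _ i b _ := by
    refine Fin.cases ?_ (fun i => ?_) i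
    · have e := thr_update (T := T) v b (i := 0) (fun j => mi_ne_zero j)
      simp only [good, if_true, e, Function.update_self]
      split_ifs <;> linarith
    · refine Fin.lastCases ?_ (fun j => ?_) i
      · rw [Fin.succ_last]
        have e := thr_update (T := T) v b (i := Fin.last (m + 1)) (fun j => (last_ne_mi j).symm)
        simp only [good, if_true, if_neg last_ne_zero, e, Function.update_self,
          Function.update_of_ne (last_ne_zero (m := m)).symm]
        split_ifs with h1 h2 h2
        · linarith
        · have : v (Fin.last (m + 1)) < 1 := by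
            by_contra h3
            exact h2 ⟨h1.1, not_lt.1 h3⟩
          linarith
        · linarith [h2.2]
        · linarith
      · rw [show (j.castSucc).succ = mi j from rfl]
        simp only [good, if_neg (mi_ne_zero j), if_neg (last_ne_mi j).symm]
        simp
  rational v _ i := by
    refine Fin.cases ?_ (fun i => ?_) i
    · simp only [good, if_true]
      split_ifs <;> linarith
    · refine Fin.lastCases ?_ (fun j => ?_) i
      · rw [Fin.succ_last]
        simp only [good, if_true, if_neg last_ne_zero]
        split_ifs with h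
        · linarith [h.2]
        · linarith
      · rw [show (j.castSucc).succ = mi j from rfl]
        simp only [good, if_neg (mi_ne_zero j), if_neg (last_ne_mi j).symm]
        simp

theorem isB_prof (h : ℝ) (l : Lab m T) : IsB m T (prof T h l) ↔ ¬ par l := by
  constructor
  · rintro ⟨l', h1, h2⟩
    have : l = l' := by
      funext j
      have := h1 j
      rw [prof_mi] at this
      exact Fin.ext (mid_inj this)
    rw [this]; exact h2
  · intro h2
    exact ⟨l, fun j => prof_mi h l j, h2⟩

theorem good_pay (v : Profile (m + 2)) :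
    ∑ i, (good m T).p v i = (if thr m T v ≤ v 0 then thr m T v else 0) +
      (if v 0 < thr m T v ∧ 1 ≤ v (Fin.last (m + 1)) then 1 else 0) := by
  rw [sum_split]
  have h0 : ∑ j : Fin m, (good m T).p v (mi j) = 0 := by
    refine Finset.sum_eq_zero fun j _ => ?_
    simp only [good, if_neg (mi_ne_zero j), if_neg (last_ne_mi j).symm]
  rw [h0]
  simp only [good, if_true, if_neg last_ne_zero]
  ring

theorem good_revenue (j : Fin m) : revenue (dist m T) (good m T) = 5 / 2 - (1 / LL T) / 2 := by
  unfold revenue
  rw [dist_sum (fun v => ∑ i, (good m T).p v i), ← Finset.mul_sum]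
  have hN := card_pos (m := m) (T := T)
  have hL := LL_pos T
  have hL2 := LL_ge T
  have h1 : ∀ l : Lab m T, (if par l then ∑ i, (good m T).p (prof T 2 l) i else
      (1 - 1 / LL T) * ∑ i, (good m T).p (prof T 2 l) i +
        (1 / LL T) * ∑ i, (good m T).p (prof T (2 * LL T) l) i) =
      if par l then 2 else 3 - 1 / LL T := by
    intro l
    rw [good_pay, good_pay]
    have e : ∀ h, thr m T (prof T h l) = if par l then 2 else 2 * LL T := by
      intro h
      unfold thr
      by_cases hp : par l
      · rw [if_pos hp, if_neg]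
        rw [isB_prof, not_not]; exact hp
      · rw [if_neg hp, if_pos]
        rw [isB_prof]; exact hp
    simp only [e, prof_zero, prof_last]
    by_cases hp : par l
    · simp only [if_pos hp, le_refl, if_true, lt_irrefl, false_and, if_false, add_zero]
    · simp only [if_neg hp, le_refl, if_true, lt_irrefl, if_false, add_zero, and_true]
      have h2 : ¬ (2 * LL T ≤ 2) := by linarith
      have h3 : 2 < 2 * LL T := by linarith
      rw [if_neg h2, if_pos h3]
      field_simp
      ring
  rw [Finset.sum_congr rfl fun l _ => h1 l, Finset.sum_ite, Finset.sum_const, Finset.sum_const,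
    nsmul_eq_mul, nsmul_eq_mul]
  obtain ⟨h2, h3⟩ := card_par (T := T) j
  have h4 : ((univ.filter fun l : Lab m T => par l).card : ℝ) =
      (Fintype.card (Lab m T) : ℝ) / 2 := by linarith
  have h5 : ((univ.filter fun l : Lab m T => ¬ par l).card : ℝ) =
      (Fintype.card (Lab m T) : ℝ) / 2 := by linarith
  rw [h4, h5]
  field_simp
  ring

end Instance

/-- For every `k ≥ 2` and `ε > 0` there is a distribution on which the `k`-lookahead auction gets
at most a fraction `4/5 + ε` of the optimal revenue. -/
theorem bad_instance (k : ℕ) (hk : 2 ≤ k) (ε : ℝ) (hε : 0 < ε) :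
    ∃ (n : ℕ) (D : Profile n →₀ ℝ), IsDist D ∧ 0 < OPT D ∧
      (∃ A : Finset (Fin n) → Profile n → Mech n, IsLookahead k D A) ∧
      ∀ A : Finset (Fin n) → Profile n → Mech n, IsLookahead k D A →
        lookRev k D A ≤ (4 / 5 + ε) * OPT D := by
  obtain ⟨m, rfl⟩ : ∃ m, k = m + 1 + 1 := ⟨k - 2, by omega⟩
  -- `m + 1` middle bidders
  obtain ⟨T, hT⟩ := exists_nat_ge (((m : ℝ) + 3) / ε)
  have hL := LL_pos T
  have hL2 := LL_ge T
  have hD : IsDist (dist (m + 1) T) := dist_isDist
  have hopt : 5 / 2 - (1 / LL T) / 2 ≤ OPT (dist (m + 1) T) := by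
    rw [← good_revenue (m := m + 1) (T := T) 0]
    exact le_OPT hD good_valid
  have hq2 := one_div_LL_le (T := T)
  have hq := one_div_LL_pos (T := T)
  have hlt : (m : ℝ) + 3 ≤ ε * LL T := by
    rw [div_le_iff₀ hε] at hT
    unfold LL
    nlinarith
  have hlt' : ((m : ℝ) + 3) / LL T ≤ ε := by
    rw [div_le_iff₀ hL]; exact hlt
  obtain ⟨Mstar, hstar⟩ := exists_optimal (univ.erase (Fin.last (m + 1 + 1)))
    (dist (m + 1) T) hD.nonneg hD.pos
  classical
  refine ⟨m + 1 + 2, dist (m + 1) T, hD, by linarith, ⟨fun _ _ => Mstar, fun _ _ _ _ => rfl,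
    fun v hv => ?_⟩, fun A hA => ?_⟩
  · obtain ⟨h, l, hh, rfl⟩ := dist_supp hv
    have e := top_prof hh l
    rw [e, cond_prof]
    exact hstar
  · have hpt : ∀ (h : ℝ) (l : Lab (m + 1) T), 2 ≤ h →
        A (top (m + 1 + 1) (prof T h l)) (prof T h l) =
          A (univ.erase (Fin.last (m + 1 + 1))) (fun _ => 1) := by
      intro h l hh
      have e := top_prof hh l
      rw [e]
      refine hA.depends _ _ _ fun j hj => ?_
      have : j = Fin.last (m + 1 + 1) := by simpa using hj
      rw [this, prof_last]
    set M := A (univ.erase (Fin.last (m + 1 + 1))) (fun _ => 1) with hM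
    have hval : OptimalFor (univ.erase (Fin.last (m + 1 + 1))) (dist (m + 1) T) M := by
      have hne : (dist (m + 1) T).support.Nonempty := by
        rw [Finset.nonempty_iff_ne_empty]
        intro h0
        have := hD.total
        unfold Finsupp.sum at this
        rw [h0] at this
        simp at this
      obtain ⟨v, hv⟩ := hne
      have h1 := hA.optimal v hv
      obtain ⟨h, l, hh, rfl⟩ := dist_supp hv
      rw [hpt h l hh] at h1
      have e := top_prof hh l
      rw [e, cond_prof] at h1
      exact h1
    have hrev : lookRev (m + 1 + 1) (dist (m + 1) T) A = revenue (dist (m + 1) T) M := by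
      unfold lookRev revenue Finsupp.sum
      refine Finset.sum_congr rfl fun v hv => ?_
      obtain ⟨h, l, hh, rfl⟩ := dist_supp hv
      simp only [hpt h l hh]
    rw [hrev]
    have h1 := upper (T := T) hval.1 hval.2.1
    have h2 : (4 / 5 + ε) * (5 / 2 - (1 / LL T) / 2) ≤ (4 / 5 + ε) * OPT (dist (m + 1) T) :=
      mul_le_mul_of_nonneg_left hopt (by linarith)
    refine h1.trans (le_trans ?_ h2)
    push_cast
    have e1 : (2 * ((m : ℝ) + 1) + 2) / LL T = 2 * (((m : ℝ) + 3) / LL T) - 2 * (1 / LL T) := by
      ring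
    rw [e1]
    nlinarith

/-- **Disproof of `ρ_k → 1`.** -/
theorem rho_le (k : ℕ) (hk : 2 ≤ k) : rho k ≤ 4 / 5 := by
  refine Real.sSup_le (fun c hc => ?_) (by norm_num)
  refine le_of_forall_pos_le_add fun ε hε => ?_
  obtain ⟨n, D, hD, hpos, ⟨A, hA⟩, hall⟩ := bad_instance k hk ε hε
  have h1 := (hc n D A hD hA).trans (hall A hA)
  exact le_of_mul_le_mul_right h1 hpos

theorem result :
    (∀ k : ℕ, 2 ≤ k → rho k ≤ 4 / 5) ∧ ¬ Tendsto rho atTop (𝓝 1) ∧
    ∀ k : ℕ, 2 ≤ k → ∀ ε : ℝ, 0 < ε →
      ∃ (n : ℕ) (D : Profile n →₀ ℝ), IsDist D ∧ 0 < OPT D ∧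
        (∃ A : Finset (Fin n) → Profile n → Mech n, IsLookahead k D A) ∧
        ∀ A : Finset (Fin n) → Profile n → Mech n, IsLookahead k D A →
          lookRev k D A ≤ (4 / 5 + ε) * OPT D := by
  refine ⟨rho_le, fun h => ?_, bad_instance⟩
  have := le_of_tendsto h ((eventually_ge_atTop 2).mono rho_le)
  norm_num at this

end Pool.Agent.Results.MP_0f9109_lc.NotToOne
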